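import Pool.Agent.U436.NT.Cover

/-!
# Coverings of affine space branched along the discriminant and osculating hyperplanes
-/

set_option autoImplicit false

namespace Pool.Agent.U436.DC

open Polynomial Finset
open Pool.Agent.U436.NT (cf exists_cf exists_symm exists_norm)

variable {R : Type*} [CommRing R] {k : Type*} [Field k] {d r : ℕ}

/-- The product of the differences of the roots. -/
def vdm (t : Fin d → R) : R := ∏ i : Fin d, ∏ j ∈ Finset.Ioi i, (t j - t i)

lemma vdm_eq_det (t : Fin d → R) : vdm t = (Matrix.vandermonde t).det := (Matrix.det_vandermonde t).symm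

lemma vdm_perm (t : Fin d → R) (σ : Equiv.Perm (Fin d)) :
    vdm (fun j => t (σ j)) = ((Equiv.Perm.sign σ : ℤ) : R) * vdm t := by
  rw [vdm_eq_det, vdm_eq_det, ← Matrix.det_permute]
  rfl

lemma vdm_perm_sq (t : Fin d → R) (σ : Equiv.Perm (Fin d)) : vdm (fun j => t (σ j)) ^ 2 = vdm t ^ 2 := by
  rw [vdm_perm, mul_pow]
  rcases Int.units_eq_one_or (Equiv.Perm.sign σ) with h | h <;> rw [h] <;> simp

lemma map_vdm {S : Type*} [CommRing S] (f : R →+* S) (t : Fin d → R) : f (vdm t) = vdm fun j => f (t j) := by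
  unfold vdm
  rw [map_prod]
  refine Finset.prod_congr rfl fun i _ => ?_
  rw [map_prod]
  exact Finset.prod_congr rfl fun j _ => map_sub _ _ _

/-- The discriminant of the general monic polynomial is a polynomial in the coefficients. -/
theorem exists_disc : ∃ D : MvPolynomial (Fin d) k, ∀ t : Fin d → k,
    MvPolynomial.eval (cf t) D = vdm t ^ 2 := by
  classical
  obtain ⟨F, hF⟩ := exists_symm (k := k) (d := d) (vdm (fun j => MvPolynomial.X j) ^ 2) (by
      intro σ
      have h1 : MvPolynomial.rename σ (vdm (fun j : Fin d => (MvPolynomial.X j : MvPolynomial (Fin d) k))) =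
          vdm (fun j : Fin d => (MvPolynomial.X (σ j) : MvPolynomial (Fin d) k)) := by
        have := map_vdm (MvPolynomial.rename (R := k) σ : MvPolynomial (Fin d) k →ₐ[k] _).toRingHom
          (fun j : Fin d => (MvPolynomial.X j : MvPolynomial (Fin d) k))
        refine this.trans ?_
        congr 1
        funext j
        exact MvPolynomial.rename_X σ j
      rw [map_pow, h1, vdm_perm_sq (fun j : Fin d => (MvPolynomial.X j : MvPolynomial (Fin d) k)) σ])
  refine ⟨F, fun t => ?_⟩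
  rw [hF, map_pow, map_vdm]
  congr 2
  funext j
  exact MvPolynomial.eval_X j

/-- The curve `v s ^ n s = g s (t)`. -/
def curve (g : Fin r → k[X]) (n : Fin r → ℕ) : Set (k × (Fin r → k)) :=
  {u | ∀ s, u.2 s ^ n s = (g s).eval u.1}

/-- The variety `y s ^ n s = D (a) ^ b s * G s (a)`. -/
def variety (D : MvPolynomial (Fin d) k) (G : Fin r → MvPolynomial (Fin d) k) (n b : Fin r → ℕ) :
    Set ((Fin d → k) × (Fin r → k)) :=
  {x | ∀ s, x.2 s ^ n s = MvPolynomial.eval x.1 D ^ b s * MvPolynomial.eval x.1 (G s)}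

/-- The map `(t j, v j) ↦ (coefficients of ∏ (X - t j), (∏ (t j - t i)) ^ c s * ∏ v j s)`. -/
noncomputable def toVariety (c : Fin r → ℕ) (u : Fin d → k × (Fin r → k)) : (Fin d → k) × (Fin r → k) :=
  (cf fun j => (u j).1, fun s => vdm (fun j => (u j).1) ^ c s * ∏ j, (u j).2 s)

variable {g : Fin r → k[X]} {n b c : Fin r → ℕ} {D : MvPolynomial (Fin d) k}
  {G : Fin r → MvPolynomial (Fin d) k}

theorem toVariety_mem (hc : ∀ s, n s * c s = 2 * b s)
    (hD : ∀ t : Fin d → k, MvPolynomial.eval (cf t) D = vdm t ^ 2)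
    (hG : ∀ (t : Fin d → k) s, MvPolynomial.eval (cf t) (G s) = ∏ j, (g s).eval (t j))
    {u : Fin d → k × (Fin r → k)} (hu : ∀ j, u j ∈ curve g n) : toVariety c u ∈ variety D G n b := by
  intro s
  show (vdm (fun j => (u j).1) ^ c s * ∏ j, (u j).2 s) ^ n s = MvPolynomial.eval (cf fun j => (u j).1) D ^ b s *
    MvPolynomial.eval (cf fun j => (u j).1) (G s)
  rw [hD, hG, mul_pow, ← pow_mul, ← pow_mul, mul_comm (c s), hc, ← Finset.prod_pow]
  congr 1
  exact Finset.prod_congr rfl fun j _ => hu j s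

theorem toVariety_surj [IsAlgClosed k] (hd : 1 ≤ d) (hn : ∀ s, n s ≠ 0) (hc : ∀ s, n s * c s = 2 * b s)
    (hD : ∀ t : Fin d → k, MvPolynomial.eval (cf t) D = vdm t ^ 2)
    (hG : ∀ (t : Fin d → k) s, MvPolynomial.eval (cf t) (G s) = ∏ j, (g s).eval (t j))
    {x : (Fin d → k) × (Fin r → k)} (hx : x ∈ variety D G n b) :
    ∃ u : Fin d → k × (Fin r → k), (∀ j, u j ∈ curve g n) ∧ toVariety c u = x := by
  classical
  obtain ⟨a, y⟩ := x
  obtain ⟨t, rfl⟩ := exists_cf a
  have hy : ∀ s, y s ^ n s = (vdm t ^ 2) ^ b s * ∏ j, (g s).eval (t j) := by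
    intro s
    have := hx s
    simp only at this
    rw [this, hD, hG]
  choose v hv using fun (j : Fin d) (s : Fin r) =>
    IsAlgClosed.exists_pow_nat_eq ((g s).eval (t j)) (Nat.pos_of_ne_zero (hn s))
  have hζ : ∀ s, ∃ ζ : k, ζ ^ n s = 1 ∧ y s = ζ * (vdm t ^ c s * ∏ j, v j s) := by
    intro s
    have hpow : y s ^ n s = (vdm t ^ c s * ∏ j, v j s) ^ n s := by
      rw [hy, mul_pow, ← pow_mul, ← pow_mul, mul_comm (c s), hc, ← Finset.prod_pow]
      congr 1
      exact Finset.prod_congr rfl fun j _ => (hv j s).symm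
    by_cases h0 : vdm t ^ c s * ∏ j, v j s = 0
    · refine ⟨1, one_pow _, ?_⟩
      rw [h0, zero_pow (hn s)] at hpow
      rw [(pow_eq_zero_iff (hn s)).mp hpow, h0, mul_zero]
    · refine ⟨y s / (vdm t ^ c s * ∏ j, v j s), ?_, ?_⟩
      · rw [div_pow, hpow, div_self (pow_ne_zero _ h0)]
      · rw [div_mul_cancel₀ _ h0]
  choose ζ hζ1 hζy using hζ
  let j0 : Fin d := ⟨0, hd⟩
  refine ⟨fun j => (t j, fun s => (if j = j0 then ζ s else 1) * v j s), fun j s => ?_,
    Prod.ext rfl (funext fun s => ?_)⟩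
  · show ((if j = j0 then ζ s else 1) * v j s) ^ n s = (g s).eval (t j)
    rw [mul_pow, hv]
    split_ifs
    · rw [hζ1, one_mul]
    · rw [one_pow, one_mul]
  · show vdm t ^ c s * ∏ j, ((if j = j0 then ζ s else 1) * v j s) = y s
    rw [Finset.prod_mul_distrib, Finset.prod_ite_eq' univ j0, if_pos (mem_univ _), hζy s]
    ring

/-- The fibres over the complement of the discriminant. -/
theorem toVariety_eq_iff {u u' : Fin d → k × (Fin r → k)} (hu : ∀ j, u j ∈ curve g n)
    (hu' : ∀ j, u' j ∈ curve g n) (hvdm : vdm (fun j => (u j).1) ≠ 0) (hv0 : ∀ j s, (u j).2 s ≠ 0) :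
    toVariety c u = toVariety c u' ↔ ∃ (σ : Equiv.Perm (Fin d)) (β : Fin d → Fin r → k),
      (∀ j s, β j s ^ n s = 1) ∧ (∀ s, ((Equiv.Perm.sign σ : ℤ) : k) ^ c s * ∏ j, β j s = 1) ∧
        ∀ j, u' j = ((u (σ j)).1, fun s => β j s * (u (σ j)).2 s) := by
  classical
  constructor
  · intro h
    have h1 : cf (fun j => (u j).1) = cf (fun j => (u' j).1) := congrArg Prod.fst h
    have h2 : ∀ s, vdm (fun j => (u j).1) ^ c s * ∏ j, (u j).2 s = vdm (fun j => (u' j).1) ^ c s * ∏ j, (u' j).2 s :=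
      fun s => congrFun (congrArg Prod.snd h) s
    obtain ⟨σ, hσ⟩ := NT.cf_eq_iff.mp h1
    refine ⟨σ, fun j s => (u' j).2 s / (u (σ j)).2 s, fun j s => ?_, fun s => ?_, fun j => ?_⟩
    · rw [div_pow, hu' j s, hu (σ j) s, hσ, div_self]
      have := pow_ne_zero (n s) (hv0 (σ j) s)
      rwa [hu (σ j) s] at this
    · rw [Finset.prod_div_distrib, Equiv.prod_comp σ (fun j => (u j).2 s)]
      have h3 := h2 s
      have h4 : vdm (fun j => (u' j).1) = ((Equiv.Perm.sign σ : ℤ) : k) * vdm (fun j => (u j).1) := by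
        rw [← vdm_perm]; congr 1; funext j; exact hσ j
      rw [h4, mul_pow] at h3
      have h5 : vdm (fun j => (u j).1) ^ c s ≠ 0 := pow_ne_zero _ hvdm
      have h6 : ∏ j, (u j).2 s ≠ 0 := Finset.prod_ne_zero_iff.mpr fun j _ => hv0 j s
      rw [mul_div_assoc', div_eq_one_iff_eq h6]
      refine mul_left_cancel₀ h5 ?_
      rw [h3]; ring
    · refine Prod.ext (hσ j) (funext fun s => ?_)
      show (u' j).2 s = (u' j).2 s / (u (σ j)).2 s * (u (σ j)).2 s
      rw [div_mul_cancel₀ _ (hv0 (σ j) s)]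
  · rintro ⟨σ, β, hβ, hβσ, h⟩
    have h1 : (fun j => (u' j).1) = fun j => (u (σ j)).1 := funext fun j => by rw [h j]
    have h2 : ∀ s, ∀ j ∈ univ, (u' j).2 s = β j s * (u (σ j)).2 s := fun s j _ => by rw [h j]
    refine Prod.ext ?_ (funext fun s => ?_)
    · exact NT.cf_eq_iff.mpr ⟨σ, fun j => congrFun h1 j⟩
    · show vdm (fun j => (u j).1) ^ c s * ∏ j, (u j).2 s = vdm (fun j => (u' j).1) ^ c s * ∏ j, (u' j).2 s
      have h4 : vdm (fun j => (u' j).1) = ((Equiv.Perm.sign σ : ℤ) : k) * vdm (fun j => (u j).1) := by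
        rw [← vdm_perm, h1]
      rw [Finset.prod_congr rfl (h2 s), Finset.prod_mul_distrib, Equiv.prod_comp σ (fun j => (u j).2 s), h4,
        mul_pow]
      calc vdm (fun j => (u j).1) ^ c s * ∏ j, (u j).2 s = (((Equiv.Perm.sign σ : ℤ) : k) ^ c s * ∏ j, β j s) *
            (vdm (fun j => (u j).1) ^ c s * ∏ j, (u j).2 s) := by rw [hβσ s, one_mul]
        _ = _ := by ring

end Pool.Agent.U436.DC
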